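import Pool.Agent.H62.T4.Lba
import Pool.Agent.H16.NVT.Slw

/-!
# The labels of two targets: the chart of the window and the slab

`GNs`, `HNs`: the label of the place `k` is the chart of the window `n`, the label of the place `k + 1`
has the slope of the window `i`. `lbt_slab`: they are labels of the two targets in a box. `lbt_two`: the
case of two slope-one places.
-/

set_option autoImplicit false

namespace Pool.T462

open Finset Real MvPolynomial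
open Pool.Agent.H49.Ent Pool.Agent.H32.Dense Pool.STK Pool.KA Pool.KSAT Pool.K2S Pool.PB Pool.S6C
open Pool.GEN Pool.RCD Pool.LA91 Pool.CHT Pool.AVG71
open Pool.AVG57 (upw upw_slam)
open Pool.GRD (LbP)
open Pool.V0T (LbT)
open Pool.D2R (WinB bt_near)
open Pool.T4C72 (BoxT WnT RadT)
open Pool.NVT16 (slG slH slab_near deg_slb dep_slb)

/-- **The labels of the two targets**: the chart of the window `n` for the place `k`, the slab of the
windows `i`, `n` for the place `k + 1`. -/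
noncomputable def GNs {m J : ℕ} {F : Fam m J} (c : ℕ → Fin m)
    (G : ℕ → PtT F → ℕ → MvPolynomial (Option (Fin m)) ℝ) (k i n : ℕ) :
    PtT F → ℕ → MvPolynomial (Option (Fin m)) ℝ :=
  fun y l => if l ≤ k then G n y k else slG c G k i n y

/-- The same labels on the side of the lines. -/
noncomputable def HNs {m J : ℕ} {F : Fam m J} (c : ℕ → Fin m)
    (H : ℕ → LnT F → ℕ → MvPolynomial (Option (Fin m)) ℝ) (k i n wi wn : ℕ) :
    LnT F → ℕ → MvPolynomial (Option (Fin m)) ℝ :=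
  fun s l => if l ≤ k then H n s k else slH c H k i n wi wn s

/-- **The labels of two targets of one slope** on a part of constant measure. -/
theorem lbt_slab (D k : ℕ) (hD : 1 ≤ D) : ∃ C : ℕ, 1 ≤ C ∧ ∀ {m : ℕ} {S : PCl m} {c : ℕ → Fin m}
    {Dr N M nb n ks t₀ : ℕ} {sn sp : ℕ → ℝ → ℝ} {Gs : Set ℝ} {s hr b o w u Λ φ' e : ℝ}
    {lam : ℝ → ℝ} {C₀ a Eb ηm φ : ℝ} {ow η σ : ℕ → ℝ} {lv bb : ℕ → ℕ → ℝ} {fb fn : ℕ → ℕ},
    BoxT S c k 1 D sn sp Gs s hr b o w u Λ φ' e lam →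
    WnT k 1 sn Gs s b w u Λ φ' N C₀ Eb ηm ow lv fb fn nb n ks → 0 ≤ s → φ ≤ u →
    C * ((s + 3) * φ') ≤ φ → 8 ≤ Λ → t₀ ≤ nb →
    ∃ cL κL : ℝ, 0 < cL ∧ 0 < κL ∧ Bas S (fun J F A => ∀ {κ : ℝ} {z : ℕ → ℕ → ℕ}
      {g₀ : ℕ → ℕ → ℕ} {Gc : ℕ → PtT F → ℕ → MvPolynomial (Option (Fin m)) ℝ}
      {H : ℕ → LnT F → ℕ → MvPolynomial (Option (Fin m)) ℝ}, κ ≤ κL →
      WinB F c (k + 1) D Dr N M C₀ a Eb ηm ow η σ lv bb κ z A g₀ Gc H →
      RadT nb n M J u ow fb fn z →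
      ∃ B : F.Ω → Prop, Sub B A ∧ cL * Pe F.p A ≤ Pe F.p B ∧
        LbT F c k 1 (D * D) w u φ 1 sn B (g₀ (fn 0)) (Gc (fn 0)) (GNs c Gc k (fb t₀) (fb nb))
          (HNs c H k (fb t₀) (fb nb) ⌊ow (fb t₀) * J⌋₊ ⌊w * J⌋₊)) := by
  classical
  obtain ⟨C₁, hC₁, hslab⟩ := slab_near D k
  obtain ⟨C₂, hC₂, hcell⟩ := cell_q D (D * D) (k + 1)
  refine ⟨4 * C₁ + 4, by omega, ?_⟩
  intro m S c Dr N M nb n ks t₀ sn sp Gs s hr b o w u Λ φ' e lam C₀ a Eb ηm φ ow η σ lv bb fb fn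
    Bx Wn hs hφu hCφ hΛ ht₀
  have hu := Bx.u0
  have hφ' := Bx.lad.φ0
  have hpos := Bx.lad.pos
  obtain ⟨Ct, htm⟩ := Bx.lad.tm
  have hLu : 8 * u ≤ Λ * u := mul_le_mul_of_nonneg_right hΛ hu.le
  have hbw := Bx.bw
  have hwo := Bx.wo
  have ho1 := Bx.o1
  have hb0 := Bx.b0
  have hw0 : 0 ≤ w := by linarith
  have hw1 : w < 1 := by linarith
  obtain ⟨y, hy⟩ : ∃ y : ℝ, y = (s + 3) * φ' := ⟨_, rfl⟩
  rw [← hy] at hCφ
  have hsφ : 0 ≤ s * φ' := mul_nonneg hs hφ'.le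
  have hy3 : y = s * φ' + 3 * φ' := by rw [hy]; ring
  have hy0 : 0 < y := by linarith
  have hCφ' : 4 * (C₁ * y) + 4 * y ≤ φ := by
    push_cast at hCφ
    linarith
  have hC1y : y ≤ C₁ * y := le_mul_of_one_le_left hy0.le (by exact_mod_cast hC₁)
  have hφ : 0 < φ := by linarith
  have hDD : D ≤ D * D := Nat.le_mul_of_pos_left _ (by omega)
  have hinj := Bx.lad.inj
  have h0N := Wn.fnN 0 (Nat.zero_le _)
  obtain ⟨J₂, hJ₂⟩ := exists_nat_ge ((2 * (C₂ : ℝ) + 2 * C₁ + 8) / (φ / 4))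
  obtain ⟨J₃, hJ₃⟩ := exists_nat_ge ((nb : ℝ) / φ')
  have hcf := Pool.V0C62.cfb_stmt htm hpos (D * D) 2 (E := 1) (fun _ => w)
    (fun i => (range (k + i)).image c) (fun i => c (k + i)) one_pos (fun _ _ => ⟨hw0, hw1⟩)
  refine ⟨1 / 2, 1, by norm_num, one_pos, ?_⟩
  refine Bas.mono (max J₂ J₃) hcf ?_
  rintro J hJ F A h2 κ z g₀ Gc H hκ W hR
  have hJ0 : (0 : ℝ) ≤ J := Nat.cast_nonneg J
  have hJ1 : 2 * (C₂ : ℝ) + 2 * C₁ + 8 ≤ φ / 4 * J := by
    have h3 : (J₂ : ℝ) ≤ J := by exact_mod_cast (le_max_left _ _).trans hJ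
    have h4 := hJ₂.trans h3
    rw [div_le_iff₀ (by positivity)] at h4
    linarith
  have hJ4 : (nb : ℝ) ≤ φ' * J := by
    have h3 : (J₃ : ℝ) ≤ J := by exact_mod_cast (le_max_right _ _).trans hJ
    have h4 := hJ₃.trans h3
    rw [div_le_iff₀ hφ'] at h4
    linarith
  have hfw : ⌊w * (J : ℝ)⌋₊ ≤ J := floor_le hw1.le J
  -- the windows of the slab
  obtain ⟨f, hf⟩ : ∃ f : ℕ → ℕ, f = fun t => fb (t₀ + t) := ⟨_, rfl⟩
  obtain ⟨n', hn'⟩ : ∃ n', n' = nb - t₀ := ⟨_, rfl⟩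
  have hfn' : f n' = fb nb := by
    rw [hf, hn']
    show fb (t₀ + (nb - t₀)) = fb nb
    rw [show t₀ + (nb - t₀) = nb by omega]
  have hf0 : f 0 = fb t₀ := by rw [hf]; rfl
  have hfN : ∀ t ≤ n', f t ≤ N := fun t ht => by
    rw [hf]
    exact Wn.fbN _ (by omega)
  have hstepw : ∀ t < n', ow (f t) ≤ ow (f (t + 1)) ∧ ow (f (t + 1)) ≤ ow (f t) + φ' :=
    fun t ht => by
      rw [hf]
      exact Wn.bs (t₀ + t) (by omega)
  have hmonw : ∀ j, ∀ t, t + j ≤ nb → ow (fb t) ≤ ow (fb (t + j)) := by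
    intro j
    induction j with
    | zero => exact fun t _ => le_rfl
    | succ j ih => exact fun t ht => (ih t (by omega)).trans (Wn.bs (t + j) (by omega)).1
  have hmonf : ∀ t t', t ≤ t' → t' ≤ n' → ow (f t) ≤ ow (f t') := by
    intro t t' h1 h2
    rw [hf]
    have h3 := hmonw (t' - t) (t₀ + t) (by omega)
    rwa [show t₀ + t + (t' - t) = t₀ + t' by omega] at h3
  have hGf : ∀ t ≤ n', ow (f t) ∈ Gs := fun t ht => by
    rw [hf]
    exact Wn.bG _ (by omega)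
  have hwn : ow (fb nb) = w := by rw [← Wn.eq]; exact Wn.ow0
  have hbf : ∀ t ≤ n', b ≤ ow (f t) := fun t ht => by
    rw [hf, ← Wn.ob]
    have h3 := hmonw (t₀ + t) 0 (by omega)
    rwa [Nat.zero_add] at h3
  have hfo : ∀ t ≤ n', ow (f t) ≤ w := fun t ht => by
    have h3 := hmonf t n' ht le_rfl
    rwa [hfn', hwn] at h3
  have hfo' : ∀ t ≤ n', ow (f t) ≤ o := fun t ht => (hfo t ht).trans (by linarith)
  have hlvf : ∀ t ≤ n', ∀ l ≤ k + 1, lv (f t) l = sn l (ow (f t)) := fun t ht l hl =>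
    Wn.lv _ (hfN t ht) l hl
  -- the levels
  have hfl : ∀ t ≤ n', ∀ t' ≤ n', ∀ l < k, |(sn l (ow (f t')) - ow (f t')) -
      (sn l (ow (f t)) - ow (f t))| ≤ 2 * φ' := by
    intro t ht t' ht' l hl
    have h3 := Bx.lad.fl l hl _ (hGf t ht) (hbf t ht) (hfo' t ht)
    have h4 := Bx.lad.fl l hl _ (hGf t' ht') (hbf t' ht') (hfo' t' ht')
    rw [abs_le] at h3 h4 ⊢
    constructor <;> linarith [h3.1, h3.2, h4.1, h4.2]
  have hlin : ∀ t ≤ n', ∀ t' ≤ n', ∀ l, k ≤ l → l ≤ k + 1 → |sn l (ow (f t')) - sn l (ow (f t)) -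
      s * (ow (f t') - ow (f t))| ≤ 2 * φ' := by
    intro t ht t' ht' l hl hl'
    have h3 := Bx.lin l hl hl' _ (hGf t ht) (hbf t ht) (hfo' t ht)
    have h4 := Bx.lin l hl hl' _ (hGf t' ht') (hbf t' ht') (hfo' t' ht')
    rw [abs_le] at h3 h4 ⊢
    constructor <;> linarith [h3.1, h3.2, h4.1, h4.2]
  have hnear0 := hslab (n := n') (f := f) (y := y) W (hinj.mono fun j hj => by
      rw [Set.mem_Iio] at hj ⊢
      omega) hfN (fun t ht => (hstepw t ht).1) (fun t ht => by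
      obtain ⟨j, hj, hzj⟩ := hR.1 (t₀ + t) (by omega)
      rw [hf]
      exact ⟨j, hj, hzj⟩) (by linarith [Wn.C0]) (by
      have h3 : (n' : ℝ) ≤ nb := by exact_mod_cast (by omega : n' ≤ nb)
      have h4 : φ' * J ≤ y * J := mul_le_mul_of_nonneg_right (by linarith) hJ0
      linarith) (fun t ht l hl => by
      rw [hlvf t ht.le l hl, hlvf (t + 1) ht l hl]
      obtain ⟨h3, h4⟩ := hstepw t ht
      rcases Nat.lt_or_ge l k with h5 | h5
      · have h6 := abs_le.1 (hfl t ht.le (t + 1) ht l h5)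
        linarith [h6.2]
      · have h6 := abs_le.1 (hlin t ht.le (t + 1) ht l h5 hl)
        have h7 : s * (ow (f (t + 1)) - ow (f t)) ≤ s * φ' :=
          mul_le_mul_of_nonneg_left (by linarith) hs
        linarith [h6.2]) (fun t ht t' ht' htt l hl => by
      rw [hlvf t ht l (by omega), hlvf t' ht' l (by omega)]
      have h3 := hmonf t t' htt ht'
      rcases Nat.lt_or_ge l k with h5 | h5
      · have h6 := abs_le.1 (hfl t ht t' ht' l h5)
        linarith [h6.1]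
      · have h6 := abs_le.1 (hlin t ht t' ht' l h5 (by omega))
        have h7 : 0 ≤ s * (ow (f t') - ow (f t)) := mul_nonneg hs (by linarith)
        linarith [h6.1]) (fun t ht => by
      rw [hlvf t ht k (by omega), hlvf t ht (k + 1) le_rfl, hlvf n' le_rfl k (by omega),
        hlvf n' le_rfl (k + 1) le_rfl]
      have h3 := abs_le.1 (Bx.lad.et _ (hGf t ht) _ (hGf n' le_rfl) (hbf t ht)
        (hmonf t n' ht le_rfl) (hfo' n' le_rfl))
      linarith [h3.2])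
  rw [hfn', ← Wn.eq, Wn.ow0, hf0] at hnear0
  -- numbers of the window
  obtain ⟨g, hg⟩ : ∃ g, g = g₀ (fn 0) := ⟨_, rfl⟩
  obtain ⟨Gw, hGw⟩ : ∃ Gw, Gw = Gc (fn 0) := ⟨_, rfl⟩
  have hev := W.ev _ h0N
  rw [Wn.ow0, ← hg] at hev
  rw [← hg] at hnear0 ⊢
  have hηm0 : 0 ≤ ηm := (W.hη _ h0N).1.trans (W.hη _ h0N).2
  have hηm : ηm ≤ φ' := (le_mul_of_one_le_left hηm0 W.C1).trans Wn.C0
  have hg1 : ∀ l ≤ k + 1, (sn l w - φ / 4) * J ≤ g l ∧ (g l : ℝ) ≤ sn l w * J := by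
    intro l hl
    obtain ⟨h4, h5⟩ := W.sds _ h0N l hl
    rw [Wn.lv _ h0N l hl, Wn.ow0, ← hg] at h4 h5
    refine ⟨le_trans (mul_le_mul_of_nonneg_right ?_ hJ0) h4, h5⟩
    linarith [(W.hσ _ h0N).2]
  have hg2 : ∀ l ≤ k + 1, (sn l w - φ') * J ≤ g l := by
    intro l hl
    obtain ⟨h4, h5⟩ := W.sds _ h0N l hl
    rw [Wn.lv _ h0N l hl, Wn.ow0, ← hg] at h4 h5
    refine le_trans (mul_le_mul_of_nonneg_right ?_ hJ0) h4
    linarith [(W.hσ _ h0N).2]
  have hlev : ∀ l, k ≤ l → l ≤ k + 1 → φ ≤ sn l w := by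
    intro l h3 h4
    have h5 := Bx.lad.st l h3 h4 _ Bx.lad.bG _ Bx.wG le_rfl (by linarith) (by linarith)
    have h6 := (Bx.room l h4).1
    linarith
  -- the exponents
  obtain ⟨E₁, hE₁⟩ : ∃ E₁ : ℝ, E₁ = C₁ * (y * J + 1) := ⟨_, rfl⟩
  rw [← hE₁] at hnear0
  have hC1r : (1 : ℝ) ≤ C₁ := by exact_mod_cast hC₁
  have hE0 : 0 ≤ E₁ := by rw [hE₁]; positivity
  have hE1 : E₁ ≤ (φ / 4 - y) * J + C₁ := by
    have h3 : C₁ * y * J ≤ (φ / 4 - y) * J := mul_le_mul_of_nonneg_right (by linarith) hJ0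
    rw [hE₁]
    linarith
  obtain ⟨X, hX⟩ : ∃ X : ℕ, X = ⌈E₁⌉₊ := ⟨_, rfl⟩
  have hX1 : E₁ ≤ X := by rw [hX]; exact Nat.le_ceil _
  have hX2 : (X : ℝ) ≤ E₁ + 1 := by rw [hX]; exact (Nat.ceil_lt_add_one hE0).le
  have hyJ : 0 ≤ y * J := by positivity
  have hφ'y : φ' * J ≤ y * J := mul_le_mul_of_nonneg_right (by linarith) hJ0
  have e1 : (φ / 4 - y) * (J : ℝ) = φ / 4 * J - y * J := by ring
  rw [e1] at hE1
  have e2 : φ * (J : ℝ) = 4 * (φ / 4 * J) := by ring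
  have hC20 : (0 : ℝ) ≤ C₂ := Nat.cast_nonneg C₂
  have hEφ : E₁ ≤ φ * J := by linarith
  have hXp : (2 : ℝ) ^ E₁ ≤ 2 ^ X := by
    rw [← Real.rpow_natCast 2 X]
    exact Real.rpow_le_rpow_of_exponent_le (by norm_num) hX1
  -- the labels
  obtain ⟨GN, hGN⟩ : ∃ GN, GN = GNs c Gc k (fb t₀) (fb nb) := ⟨_, rfl⟩
  obtain ⟨HN, hHN⟩ : ∃ HN, HN = HNs c H k (fb t₀) (fb nb) ⌊ow (fb t₀) * J⌋₊ ⌊w * J⌋₊ := ⟨_, rfl⟩
  rw [← hGN, ← hHN]
  have eG : ∀ y', GN y' k = Gc (fn 0) y' k := fun y' => by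
    rw [hGN, Wn.eq]
    exact if_pos le_rfl
  have eG1 : ∀ y', GN y' (k + 1) = slG c Gc k (fb t₀) (fn 0) y' := fun y' => by
    rw [hGN, Wn.eq]
    exact if_neg (by omega)
  have eH : ∀ s', HN s' k = H (fn 0) s' k := fun s' => by
    rw [hHN, Wn.eq]
    exact if_pos le_rfl
  have eH1 : ∀ s', HN s' (k + 1) = slH c H k (fb t₀) (fn 0) ⌊ow (fb t₀) * J⌋₊ ⌊w * J⌋₊ s' :=
    fun s' => by
      rw [hHN, Wn.eq]
      exact if_neg (by omega)
  have hbN := Wn.fbN t₀ ht₀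
  have hcases : ∀ l, k ≤ l → l ≤ k + 1 → l = k ∨ l = k + 1 := fun l a b => by omega
  have hdeg : ∀ l, k ≤ l → l ≤ k + 1 → (∀ y', (GN y' l).totalDegree ≤ D * D) ∧
      ∀ s', (HN s' l).totalDegree ≤ D * D := by
    intro l a b
    rcases hcases l a b with rfl | rfl
    · exact ⟨fun y' => by rw [eG]; exact (hev.ball.degG _ _).trans hDD,
        fun s' => by rw [eH]; exact (hev.ball.degH _ _).trans hDD⟩
    · exact ⟨fun y' => by
        rw [eG1]
        exact deg_slb _ hD ((W.ev _ hbN).ball.degG _ _) ((W.ev _ h0N).ball.degG _ _)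
          ((W.ev _ h0N).ball.degG _ _), fun s' => by
        rw [eH1]
        exact deg_slb _ hD ((W.ev _ hbN).ball.degH _ _) ((W.ev _ h0N).ball.degH _ _)
          ((W.ev _ h0N).ball.degH _ _)⟩
  have hdep : ∀ l, k ≤ l → l ≤ k + 1 → (∀ y', DepC c l (GN y' l)) ∧ ∀ s', DepC c l (HN s' l) := by
    intro l a b
    rcases hcases l a b with rfl | rfl
    · exact ⟨fun y' => by rw [eG]; exact hev.ball.depG _ _,
        fun s' => by rw [eH]; exact hev.ball.depH _ _⟩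
    · exact ⟨fun y' => by
        rw [eG1]
        exact dep_slb ((W.ev _ hbN).ball.depG _ _) ((W.ev _ h0N).ball.depG _ _)
          ((W.ev _ h0N).ball.depG _ _), fun s' => by
        rw [eH1]
        exact dep_slb ((W.ev _ hbN).ball.depH _ _) ((W.ev _ h0N).ball.depH _ _)
          ((W.ev _ h0N).ball.depH _ _)⟩
  have hcls : ∀ l, k ≤ l → l ≤ k + 1 → ∀ ω, A ω → GN (ptr F J ω) l =
      HN (slam F ⌊w * J⌋₊ ω) l := by
    intro l a b ω hω
    rcases hcases l a b with rfl | rfl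
    · rw [eG, eH]
      exact hev.cls ω hω l (by omega)
    · rw [eG1, eH1]
      have h3 : ow (fb t₀) ≤ w := by
        have := hfo 0 (Nat.zero_le _)
        rwa [hf0] at this
      unfold slG slH
      rw [upw_slam F (Nat.floor_le_floor (mul_le_mul_of_nonneg_right h3 hJ0)) hfw ω,
        (W.ev _ hbN).cls ω hω (k + 1) (by omega), hev.cls ω hω (k + 1) (by omega),
        hev.cls ω hω k (by omega)]
  have hbtN : ∀ ω, A ω → NBx c (Gc (fn 0) (ptr F J ω)) g ⌊w * J⌋₊ (F.t ω) (k + 1) (bt F ω) := by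
    intro ω hω
    refine ⟨?_, fun l hl => hev.ball.pos ω hω l (by omega)⟩
    show |bt F ω none - bt F ω none| ≤ _
    rw [sub_self, abs_zero]
    positivity
  have hnear : ∀ l, k ≤ l → l ≤ k + 1 → ∀ ω, A ω → ∀ x,
      NBx c (Gc (fn 0) (ptr F J ω)) g ⌊w * J⌋₊ (F.t ω) l x →
      |eval x (GN (ptr F J ω) l) - eval x (Gc (fn 0) (ptr F J ω) l)| ≤ 2 ^ E₁ / 2 ^ g l := by
    intro l a b ω hω x hx
    rcases hcases l a b with rfl | rfl
    · rw [eG, sub_self, abs_zero]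
      positivity
    · rw [eG1]
      exact hnear0 ω hω x hx
  have hposl : ∀ l, k ≤ l → l ≤ k + 1 → ∀ ω, A ω →
      |F.x ω (c l) - eval (bt F ω) (GN (ptr F J ω) l)| ≤ 1 / 2 ^ ⌊(sn l w - φ) * J⌋₊ := by
    intro l a b ω hω
    have h3 : NBx c (Gc (fn 0) (ptr F J ω)) g ⌊w * J⌋₊ (F.t ω) l (bt F ω) :=
      ⟨(hbtN ω hω).1, fun i hi => (hbtN ω hω).2 i (by omega)⟩
    have h4 := hnear l a b ω hω _ h3
    have h5 := hev.ball.pos ω hω l (by omega)
    have h6 : |F.x ω (c l) - eval (bt F ω) (GN (ptr F J ω) l)| ≤ (2 : ℝ) ^ (E₁ + 1) / 2 ^ g l := by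
      have h7 : (2 : ℝ) ^ (E₁ + 1) = 2 ^ E₁ + 2 ^ E₁ := by
        rw [Real.rpow_add (by norm_num), Real.rpow_one]
        ring
      have h8 : (1 : ℝ) ≤ 2 ^ E₁ := Real.one_le_rpow (by norm_num) hE0
      rw [h7, add_div]
      have h9 : (1 : ℝ) / 2 ^ g l ≤ 2 ^ E₁ / 2 ^ g l := div_le_div_of_nonneg_right h8 (by positivity)
      rw [abs_le] at h4 h5 ⊢
      constructor <;> linarith only [h4.1, h4.2, h5.1, h5.2, h9]
    refine h6.trans ?_
    rw [div_le_div_iff₀ (by positivity) (by positivity), one_mul, ← Real.rpow_natCast,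
      ← Real.rpow_natCast, ← Real.rpow_add (by norm_num)]
    refine Real.rpow_le_rpow_of_exponent_le (by norm_num) ?_
    have h7 := Nat.floor_le (show 0 ≤ (sn l w - φ) * (J : ℝ) from
      mul_nonneg (by linarith [hlev l a b]) hJ0)
    have h8 := hg2 l b
    have e3 : (sn l w - φ) * (J : ℝ) = sn l w * J - φ * J := by ring
    have e4 : (sn l w - φ') * (J : ℝ) = sn l w * J - φ' * J := by ring
    have h9 := h7.trans (le_of_eq e3)
    rw [e4] at h8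
    linarith
  -- the coefficients
  obtain ⟨B, b1, b2, b3⟩ := h2 (fun i => ⌊(sn (k + i) w - φ) * J⌋₊)
    (fun i => {p : MvPolynomial (Option (Fin m)) ℝ // p.totalDegree ≤ D * D ∧ DepC c (k + i) p})
    (fun i y' => if h : i < 2 then ⟨GN y' (k + i), (hdeg (k + i) (by omega) (by omega)).1 y',
      (hdep (k + i) (by omega) (by omega)).1 y'⟩ else ⟨0, by simp, fun _ _ _ _ => by simp⟩)
    (fun i s' => if h : i < 2 then ⟨HN s' (k + i), (hdeg (k + i) (by omega) (by omega)).2 s',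
      (hdep (k + i) (by omega) (by omega)).2 s'⟩ else ⟨0, by simp, fun _ _ _ _ => by simp⟩)
    (fun i => Subtype.val) (fun i hi => by
      refine ⟨fun v => v.2.1, fun v x x' h3 h4 => v.2.2 x x' h3 fun j hj =>
        h4 _ (mem_image_of_mem _ (mem_range.2 hj)), fun ω hω => ?_, fun ω hω => ?_⟩
      · simp only [dif_pos hi]
        exact Subtype.ext (hcls (k + i) (by omega) (by omega) ω hω)
      · simp only [dif_pos hi]
        rw [← hcls (k + i) (by omega) (by omega) ω hω]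
        exact hposl (k + i) (by omega) (by omega) ω hω)
  refine ⟨B, b1, ?_, ⟨hdeg, hdep, fun l a b ω hω => hcls l a b ω (b1 ω hω), fun l a b => ?_,
    fun l a b ω hω => hposl l a b ω (b1 ω hω), ⟨fun _ _ => 0, fun l a b ω hω x hx => ?_⟩,
    fun l a b ω ν hω hν hpt => ?_⟩⟩
  · linarith
  · obtain ⟨i, rfl⟩ : ∃ i, l = k + i := ⟨l - k, by omega⟩
    intro ω hω j
    have h3 := b3 i (by omega) ω hω j
    simp only [dif_pos (show i < 2 by omega)] at h3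
    exact h3
  · rw [add_zero]
    exact (hnear l a b ω (b1 ω hω) x hx).trans (div_le_div_of_nonneg_right
      (Real.rpow_le_rpow_of_exponent_le (by norm_num) hEφ) (by positivity))
  · obtain ⟨v, hv⟩ : ∃ v, v = ⌈(3 * u + φ / 4) * J⌉₊ + X + C₂ + 1 := ⟨_, rfl⟩
    have hv1 : (3 * u + φ / 4) * J ≤ ⌈(3 * u + φ / 4) * (J : ℝ)⌉₊ := Nat.le_ceil _
    have hv2 : (⌈(3 * u + φ / 4) * (J : ℝ)⌉₊ : ℝ) ≤ (3 * u + φ / 4) * J + 1 :=
      (Nat.ceil_lt_add_one (by positivity)).le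
    have hvr : (v : ℝ) = ⌈(3 * u + φ / 4) * (J : ℝ)⌉₊ + X + C₂ + 1 := by
      rw [hv]
      push_cast
      ring
    have hEr : ((⌊(Eb + σ (fn 0) + η (fn 0)) * J⌋₊ : ℕ) : ℝ) ≤ (Eb + 2 * φ') * J := by
      refine (Nat.floor_le (mul_nonneg (by linarith [W.Eb0, (W.hσ _ h0N).1, (W.hη _ h0N).1])
        hJ0)).trans (mul_le_mul_of_nonneg_right ?_ hJ0)
      linarith [(W.hσ _ h0N).2, (W.hη _ h0N).2]
    have huJ : φ * J ≤ u * J := mul_le_mul_of_nonneg_right hφu hJ0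
    have e1' := hcell (hinj.mono fun j hj => by
        rw [Set.mem_Iio] at hj ⊢
        omega) hev.ball (v := v) (l := l) (M := 2 ^ X) (fun i hi => by
      have h4 : (((⌊(Eb + σ (fn 0) + η (fn 0)) * J⌋₊ + g i + v + C₂ : ℕ)) : ℝ) ≤ (J : ℕ) := by
        push_cast
        rw [hvr]
        have h5 := (hg1 i hi).2
        have h6 := mul_le_mul_of_nonneg_right (Wn.Eb i hi) hJ0
        have h7 : 8 * u * (J : ℝ) ≤ Λ * u * J := mul_le_mul_of_nonneg_right hLu hJ0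
        nlinarith
      exact_mod_cast h4) b (by positivity) (fun y' => GN y' l)
      (fun y' => (hdeg l a b).1 y') (fun y' => (hdep l a b).1 y')
      (fun ω' hω' x hx => (hnear l a b ω' hω' x hx).trans
        (div_le_div_of_nonneg_right hXp (by positivity))) ω ν (b1 ω hω) (b1 ν hν) hpt
    refine e1'.trans ?_
    have h4 : (2 : ℝ) ^ C₂ * (1 + 2 ^ X) ≤ 2 ^ (C₂ + X + 1) := by
      have h5 : (1 : ℝ) ≤ 2 ^ X := one_le_pow₀ (by norm_num)
      rw [pow_succ, pow_add]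
      nlinarith [(by positivity : (0 : ℝ) < 2 ^ C₂)]
    refine (div_le_div_of_nonneg_right h4 (by positivity)).trans ?_
    rw [div_le_div_iff₀ (by positivity) (by positivity), one_mul, ← pow_add]
    refine pow_le_pow_right₀ (by norm_num) ?_
    have h5 : ⌊(sn l w + 3 * u) * (J : ℝ)⌋₊ ≤ g l + ⌈(3 * u + φ / 4) * (J : ℝ)⌉₊ := by
      refine Nat.floor_le_of_le ?_
      push_cast
      have h6 := (hg1 l b).1
      nlinarith
    omega

/-- The labels of two targets over two slope-one places. -/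
noncomputable def GN2 {m J : ℕ} {F : Fam m J} (c : ℕ → Fin m)
    (G : ℕ → PtT F → ℕ → MvPolynomial (Option (Fin m)) ℝ) (i n : ℕ) :
    PtT F → ℕ → MvPolynomial (Option (Fin m)) ℝ :=
  fun y l => if l ≤ 2 then G n y 2 else slG c G 2 i n y

/-- The same labels on the side of the lines. -/
noncomputable def HN2 {m J : ℕ} {F : Fam m J} (c : ℕ → Fin m)
    (H : ℕ → LnT F → ℕ → MvPolynomial (Option (Fin m)) ℝ) (i n wi wn : ℕ) :
    LnT F → ℕ → MvPolynomial (Option (Fin m)) ℝ :=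
  fun s l => if l ≤ 2 then H n s 2 else slH c H 2 i n wi wn s

/-- **(LBT2)** The labels of two targets of one slope over two slope-one places. -/
theorem lbt_two (D : ℕ) (hD : 1 ≤ D) : ∃ C : ℕ, 1 ≤ C ∧ ∀ {m : ℕ} {S : PCl m} {c : ℕ → Fin m}
    {Dr N M nb n ks t₀ : ℕ} {sn sp : ℕ → ℝ → ℝ} {Gs : Set ℝ} {s hr b o w u Λ φ' e : ℝ}
    {lam : ℝ → ℝ} {C₀ a Eb ηm φ : ℝ} {ow η σ : ℕ → ℝ} {lv bb : ℕ → ℕ → ℝ} {fb fn : ℕ → ℕ},
    BoxT S c 2 1 D sn sp Gs s hr b o w u Λ φ' e lam →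
    WnT 2 1 sn Gs s b w u Λ φ' N C₀ Eb ηm ow lv fb fn nb n ks → 0 ≤ s → φ ≤ u →
    C * ((s + 3) * φ') ≤ φ → 8 ≤ Λ → t₀ ≤ nb →
    ∃ cL κL : ℝ, 0 < cL ∧ 0 < κL ∧ Bas S (fun J F A => ∀ {κ : ℝ} {z : ℕ → ℕ → ℕ}
      {g₀ : ℕ → ℕ → ℕ} {Gc : ℕ → PtT F → ℕ → MvPolynomial (Option (Fin m)) ℝ}
      {H : ℕ → LnT F → ℕ → MvPolynomial (Option (Fin m)) ℝ}, κ ≤ κL →
      WinB F c (2 + 1) D Dr N M C₀ a Eb ηm ow η σ lv bb κ z A g₀ Gc H →
      RadT nb n M J u ow fb fn z →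
      ∃ B : F.Ω → Prop, Sub B A ∧ cL * Pe F.p A ≤ Pe F.p B ∧
        LbT F c 2 1 (D * D) w u φ 1 sn B (g₀ (fn 0)) (Gc (fn 0)) (GN2 c Gc (fb t₀) (fb nb))
          (HN2 c H (fb t₀) (fb nb) ⌊ow (fb t₀) * J⌋₊ ⌊w * J⌋₊)) :=
  lbt_slab D 2 hD

end Pool.T462
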